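import Mathlib

set_option autoImplicit false

/-!
Project MU (MP_753cb1_lc, architect helper69), MM3: approximation of measurable functions on a
product space by functions of finitely many coordinates.
-/

namespace Pool.Agent.helper96.MU

open Finset Filter MeasureTheory

open scoped symmDiff

/-- approximation by functions of finitely many coordinates, for any finite measure -/
theorem exists_window_gen {I X Y : Type} [MeasurableSpace X] [Finite Y] [Nonempty Y]
    (μ : Measure (I → X)) [IsFiniteMeasure μ] (F : (I → X) → Y)
    (hF : ∀ y, MeasurableSet {x | F x = y}) (ε : ℝ) (hε : 0 < ε) :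
    ∃ (W : Finset I) (F' : (I → X) → Y), (∀ x y, (∀ i ∈ W, x i = y i) → F' x = F' y) ∧
      μ.real {x | F' x ≠ F x} < ε := by
  classical
  haveI := Fintype.ofFinite Y
  have hcard : 0 < (Fintype.card Y : ℝ) := by exact_mod_cast Fintype.card_pos
  have hδ0 : 0 < ENNReal.ofReal (ε / (Fintype.card Y)) := ENNReal.ofReal_pos.2 (by positivity)
  have key : ∀ y : Y, ∃ t ∈ measurableCylinders (fun _ : I => X),
      μ (t ∆ {x | F x = y}) < ENNReal.ofReal (ε / (Fintype.card Y)) := by
    intro y
    refine exists_measure_symmDiff_lt_of_generateFrom_isSetRing isSetRing_measurableCylinders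
      ⟨{Set.univ}, Set.countable_singleton _, ?_, ?_⟩
      generateFrom_measurableCylinders.symm (hF y) hδ0
    · rw [Set.singleton_subset_iff]
      exact univ_mem_measurableCylinders _
    · simp
  choose t ht hμt using key
  have key2 : ∀ y, ∃ (s : Finset I) (S : Set (∀ _ : s, X)), t y = cylinder s S := by
    intro y
    obtain ⟨s, S, -, h⟩ := (mem_measurableCylinders _).1 (ht y)
    exact ⟨s, S, h⟩
  choose s S hts using key2
  let G : (Y → Prop) → Y := fun p => if h : ∃ y, p y then h.choose else Classical.arbitrary Y
  refine ⟨Finset.univ.biUnion s, fun x => G (fun y => x ∈ t y), ?_, ?_⟩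
  · intro x y hxy
    have : (fun z => x ∈ t z) = (fun z => y ∈ t z) := by
      funext z
      apply propext
      rw [hts z]
      simp only [mem_cylinder]
      have : (s z).restrict x = (s z).restrict y := by
        funext i
        exact hxy i (Finset.mem_biUnion.2 ⟨z, Finset.mem_univ _, i.2⟩)
      rw [this]
    show G (fun z => x ∈ t z) = G (fun z => y ∈ t z)
    rw [this]
  · have hsub : {x | G (fun y => x ∈ t y) ≠ F x} ⊆
        ⋃ y ∈ (Finset.univ : Finset Y), t y ∆ {x | F x = y} := by
      intro x hx
      have hx' : G (fun y => x ∈ t y) ≠ F x := hx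
      simp only [Finset.mem_univ, Set.iUnion_true, Set.mem_iUnion]
      by_cases h : x ∈ t (F x)
      · have hex : ∃ y, x ∈ t y := ⟨F x, h⟩
        have hG : G (fun y => x ∈ t y) = hex.choose := dif_pos hex
        refine ⟨hex.choose, Or.inl ⟨hex.choose_spec, fun h' => hx' ?_⟩⟩
        have h'' : F x = hex.choose := h'
        rw [hG, h'']
      · exact ⟨F x, Or.inr ⟨rfl, h⟩⟩
    calc μ.real {x | G (fun y => x ∈ t y) ≠ F x}
        ≤ μ.real (⋃ y ∈ (Finset.univ : Finset Y), t y ∆ {x | F x = y}) :=
          measureReal_mono hsub (measure_ne_top _ _)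
      _ ≤ ∑ y : Y, μ.real (t y ∆ {x | F x = y}) := measureReal_biUnion_finset_le _ _
      _ < ∑ _y : Y, ε / (Fintype.card Y) := by
          apply Finset.sum_lt_sum_of_nonempty Finset.univ_nonempty
          intro y _
          exact ENNReal.toReal_lt_of_lt_ofReal (hμt y)
      _ = ε := by
          rw [Finset.sum_const, Finset.card_univ, nsmul_eq_mul]
          field_simp

end Pool.Agent.helper96.MU
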