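import Pool.Agent.helper69.MU.Uni
import Pool.Agent.helper96.MU.WinG

set_option autoImplicit false

/-!
Project MU (MP_753cb1_lc, architect helper69), MM3: approximation of measurable functions on
`I → X` by functions of finitely many coordinates.
-/

namespace Pool.Agent.helper96.MU

open Finset Filter MeasureTheory Pool.Agent.helper69.MU

theorem exists_window {I X Y : Type} [Countable I] [Fintype X] [Nonempty X] [MeasurableSpace X]
    [MeasurableSingletonClass X] [Finite Y] [Nonempty Y] (F : (I → X) → Y)
    (hF : ∀ y, MeasurableSet {x | F x = y}) (ε : ℝ) (hε : 0 < ε) :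
    ∃ (W : Finset I) (F' : (I → X) → Y), (∀ x y, (∀ i ∈ W, x i = y i) → F' x = F' y) ∧
      (um I X).real {x | F' x ≠ F x} < ε := by
  haveI : IsProbabilityMeasure (uni X) := by unfold uni; infer_instance
  haveI : IsProbabilityMeasure (um I X) := by unfold um; infer_instance
  exact exists_window_gen (um I X) F hF ε hε

end Pool.Agent.helper96.MU
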